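import Pool.Agent.R721.CD.Final

/-!
Two different almost simple groups with socle `PSL(2,25)` and the same set of irreducible character
degrees: `PΓL(2,25)`, of order 31200, and its subgroup `M(25)` of index two which is sharply
3-transitive on the projective line and is not `PGL(2,25)`. Both have degree set
`{1, 25, 26, 48, 52}`. So the degree set of `PΓL(2,25)` does not determine it up to an abelian
normal subgroup.

Idea. Let `V` be an irreducible representation of `K = M(25)` which is nontrivial on
`S = PSL(2,25)`, let `U` be a Sylow 5-subgroup of `S` and `r` a generator of the torus of `S` of
order 12. Counting fixed points on the projective line expresses the sum of a class function over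
the elements of `S` without fixed points through its sums over `S`, `U` and the torus; the classes
of such elements in `K` have length 1200. Integrality, orthogonality, the Cauchy-Schwarz inequality
and the bound of the degree by an index leave only the degrees 25, 26, 48, 52. The degrees of
`PΓL(2,25)` follow by restriction to `K`; the degree 96 is excluded because the characters of `K` of
degree 48 are invariant.
-/

set_option autoImplicit false

namespace Pool.Agent.Results.MP_0ee941_al.DegreeSetPSL25

open Pool.Agent.R721.CD

/-- The simple group `PSL(2, 25)` (of Lie type) has subgroups `K ≤ H` of its automorphism group,
both containing the inner automorphisms (so both are almost simple of Lie type), with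
`|H| = 31200`, `|K| = 15600` and `cd(H) = cd(K) = {1, 25, 26, 48, 52}`. There is no abelian normal
subgroup `A` of `K` with `K / A` isomorphic to `H`. -/
theorem result : ∃ H K : Subgroup (MulAut PSL25),
    HasData PSL25 H 31200 ∧ HasData PSL25 K 15600 ∧ K ≤ H ∧ ¬ AbelianByIso K H :=
  main25

end Pool.Agent.Results.MP_0ee941_al.DegreeSetPSL25
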